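import Pool.Agent.H677R3.RegFinal

/-!
# The asymptotic regularity of powers of an edge ideal can depend on the characteristic although
# the regularity of the edge ideal does not

`G` is the join of (two disjoint 5-cycles) with (the complement of the 1-skeleton of an 11-vertex
flag triangulation of the real projective plane, plus a disjoint edge); it has 23 vertices.

Definitions used (file `Pool.Agent.H677R3.RegKoszul` and `RegDeg`):
* `edgeIdeal k G` is the ideal of `k[x_0,…,x_22]` spanned by the `x_i x_j`, `i` adjacent to `j`;
* `koszulD` is the Koszul differential of the variables; a Koszul chain assigns to every finite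
  set `T` of variables the coefficient of `e_T`;
* `TorNe J i e`: the Koszul homology `H_i(x_1,…,x_n; J) = Tor_i(J, k)` is nonzero in internal
  degree `i + e`;
* `IsReg J r`: `r` is the greatest `e` such that `TorNe J i e` for some `i`, i.e. `reg J = r`.
-/

universe u

namespace Pool.Agent.Results.MP_9740d9_al.AsymptoticRegularity

open Pool.Agent.H677R3.EdgeReg

theorem result : ∃ G : SimpleGraph (Fin 23),
    (∀ (k : Type u) [Field k], IsReg (edgeIdeal k G) 5) ∧
    (∀ (k : Type u) [Field k], ringChar k = 2 → ∀ q : ℕ, 1 ≤ q →
      IsReg ((edgeIdeal k G) ^ q) (2 * q + 3)) ∧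
    (∀ (k : Type u) [Field k], ringChar k ≠ 2 → ∀ q : ℕ, 2 ≤ q →
      IsReg ((edgeIdeal k G) ^ q) (2 * q + 2)) := by
  refine ⟨G23, fun k _ => isReg_one k, ?_, ?_⟩
  · intro k _ hk q hq
    have hc : CharP k 2 := ringChar.of_eq hk
    exact isReg_two k (CharTwo.two_eq_zero) q hq
  · intro k _ hk q hq
    exact isReg_odd k (Ring.two_ne_zero hk) q hq

end Pool.Agent.Results.MP_9740d9_al.AsymptoticRegularity
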